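import Pool.Agent.R276.NC.Stm
import Pool.Agent.W98.HY.ABV
import Pool.Agent.Y271.CO.Poly

/-!
# Part NC-C: log-integrability of the resolvent for almost every coupling constant, on Banach spaces
(Fatou's lemma along the finite sections; twin of `Pool.Agent.R276.CP.Fat`)
-/

set_option autoImplicit false

namespace Pool.Agent.R276.NC.Fat

open MeasureTheory Set Metric Filter Topology
open Pool.Agent.R276.NC
open Pool.Agent.R276.CP (lm LogBd S_HAD S_POT)
open scoped ENNReal NNReal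

/-- `lm` is measurable -/
theorem meas_lm : Measurable lm := by
  unfold lm
  refine Measurable.ite (measurableSet_singleton 0) measurable_const ?_
  apply Measurable.ennreal_ofReal
  unfold Real.posLog
  exact measurable_const.max (Real.measurable_log.comp measurable_inv)

theorem le_exp_posLog (x : ℝ) : x ≤ Real.exp (Real.posLog x) := by
  rcases le_or_gt x 0 with h | h
  · exact h.trans (Real.exp_pos _).le
  · calc x = Real.exp (Real.log x) := (Real.exp_log h).symm
      _ ≤ _ := Real.exp_le_exp.2 (by unfold Real.posLog; exact le_max_right _ _)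

theorem posLog_le_of_le_exp {x c : ℝ} (hx : 0 ≤ x) (hc : 0 ≤ c) (h : x ≤ Real.exp c) :
    Real.posLog x ≤ c := by
  unfold Real.posLog
  apply max_le hc
  rcases hx.eq_or_lt with h0 | h0
  · rw [← h0, Real.log_zero]
    exact hc
  · rwa [Real.log_le_iff_le_exp h0]

theorem one_add_le {c t k F r : ℝ} (hF : 0 ≤ F) (hr : 0 ≤ r) (hc : c = 1 + F * r)
    (hk : k ≤ r) (ht : 0 ≤ t) : 1 + F * k * t ≤ Real.exp (c * Real.log (1 + t)) := by
  have h1 : 1 ≤ c := by rw [hc]; nlinarith [mul_nonneg hF hr]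
  have h2 := one_add_mul_self_le_rpow_one_add (s := t) (by linarith) h1
  have h3 : (1 + t) ^ c = Real.exp (c * Real.log (1 + t)) := by
    rw [Real.rpow_def_of_pos (by linarith), mul_comm]
  rw [← h3]
  refine le_trans ?_ h2
  have h4 : F * k ≤ c := by
    rw [hc]
    nlinarith [mul_le_mul_of_nonneg_left hk hF]
  have := mul_le_mul_of_nonneg_right h4 ht
  linarith

variable {X : Type} [NormedAddCommGroup X] [NormedSpace ℂ X] [CompleteSpace X]

/-- limits of operators whose resolvents at a point are bounded along a subsequence -/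
theorem res_lim {T : ℕ → (X →L[ℂ] X)} {T0 : X →L[ℂ] X} (hT : Tendsto T atTop (𝓝 T0)) (z : ℂ)
    (M : ℝ) (hf : ∃ᶠ n in atTop, z ∈ resolventSet ℂ (T n) ∧ ‖resolvent (T n) z‖ ≤ M) :
    z ∈ resolventSet ℂ T0 ∧ ‖resolvent T0 z‖ ≤ M := by
  have hlim : Tendsto (fun n => algebraMap ℂ (X →L[ℂ] X) z - T n) atTop
      (𝓝 (algebraMap ℂ (X →L[ℂ] X) z - T0)) := tendsto_const_nhds.sub hT
  have hM : 0 ≤ M := by
    obtain ⟨n, -, hn⟩ := hf.exists
    exact (norm_nonneg _).trans hn
  have hunit : IsUnit (algebraMap ℂ (X →L[ℂ] X) z - T0) := by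
    have hdist : ∀ᶠ n in atTop, ‖T n - T0‖ * (M + 1) < 1 := by
      have h1 : Tendsto (fun n => ‖T n - T0‖ * (M + 1)) atTop (𝓝 (0 * (M + 1))) := by
        apply Tendsto.mul_const
        have := (hT.sub_const T0).norm
        simpa using this
      rw [zero_mul] at h1
      exact h1.eventually (gt_mem_nhds one_pos)
    obtain ⟨n, ⟨hn1, hn2⟩, hn3⟩ := (hf.and_eventually hdist).exists
    obtain ⟨U, hU⟩ := hn1
    have e1 : resolvent (T n) z = (↑U⁻¹ : X →L[ℂ] X) := by
      rw [resolvent, ← hU, Ring.inverse_unit]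
    rw [e1] at hn2
    have e2 : algebraMap ℂ (X →L[ℂ] X) z - T0 =
        (U : X →L[ℂ] X) * (1 - (↑U⁻¹ : X →L[ℂ] X) * (T0 - T n)) := by
      rw [mul_sub, mul_one, ← mul_assoc, Units.mul_inv, one_mul, hU]
      abel
    rw [e2]
    refine U.isUnit.mul ?_
    apply isUnit_one_sub_of_norm_lt_one
    calc ‖(↑U⁻¹ : X →L[ℂ] X) * (T0 - T n)‖ ≤ ‖(↑U⁻¹ : X →L[ℂ] X)‖ * ‖T0 - T n‖ := norm_mul_le _ _
      _ ≤ (M + 1) * ‖T n - T0‖ := by
          rw [norm_sub_rev]
          gcongr
          linarith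
      _ < 1 := by rwa [mul_comm]
  refine ⟨hunit, ?_⟩
  obtain ⟨U, hU⟩ := hunit
  have hc : Tendsto (fun n => resolvent (T n) z) atTop (𝓝 (resolvent T0 z)) := by
    unfold resolvent
    rw [← hU] at hlim ⊢
    exact (NormedRing.inverse_continuousAt U).tendsto.comp hlim
  exact le_of_tendsto_of_frequently hc.norm (hf.mono fun n h => h.2)

/-- the first bound -/
noncomputable def Phi {n : ℕ} (A : X →L[ℂ] X) (f : Fin n → (X →L[ℂ] ℂ)) (x : Fin n → X) (F r : ℝ)
    (q : ℂ × ℂ) : ℝ≥0∞ :=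
  (ENNReal.ofReal (Real.posLog ‖resolvent A q.1‖) + ENNReal.ofReal (Real.log F) +
    ENNReal.ofReal (1 + F * r) * ∑ j, ENNReal.ofReal (Real.log (1 + ‖resolvent A q.1 (x j)‖))) +
    lm ‖(1 - q.2 • Bm (resolvent A q.1) f x).det‖

theorem phi_le (hRES : S_BRES) {n : ℕ} (A K : X →L[ℂ] X) (f : Fin n → (X →L[ℂ] ℂ)) (x : Fin n → X)
    {F r c : ℝ} {κ z : ℂ} (hF : 1 ≤ F) (hFs : 1 + ∑ i, ‖f i‖ ^ 2 ≤ F ^ 2)
    (hK : ∀ y, K y = ∑ j, f j y • x j) (hc0 : 0 ≤ c)
    (hz : z ∈ resolventSet ℂ A) (hκ : ‖κ‖ < r) (h : Phi A f x F r (z, κ) ≤ ENNReal.ofReal c) :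
    z ∈ resolventSet ℂ (A + κ • K) ∧ ‖resolvent (A + κ • K) z‖ ≤ Real.exp c := by
  have hr : 0 ≤ r := (norm_nonneg κ).trans hκ.le
  have hF0 : 0 ≤ F := by linarith
  unfold Phi at h
  have hf : (1 - κ • Bm (resolvent A z) f x).det ≠ 0 := by
    intro h0
    simp only [h0] at h
    rw [norm_zero] at h
    unfold lm at h
    simp at h
  obtain ⟨h1, h2⟩ := hRES X n f x A K F κ z hF0 hFs hK hz hf
  refine ⟨h1, ?_⟩
  have hf' : 0 < ‖(1 - κ • Bm (resolvent A z) f x).det‖ := norm_pos_iff.2 hf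
  set N := ‖(1 - κ • Bm (resolvent A z) f x).det‖ with hN
  set R := resolvent A z with hR
  have hlog : ∀ j, 0 ≤ Real.log (1 + ‖R (x j)‖) := fun j =>
    Real.log_nonneg (by linarith [norm_nonneg (R (x j))])
  have hbn : 0 ≤ ∑ j, Real.log (1 + ‖R (x j)‖) := Finset.sum_nonneg fun j _ => hlog j
  have hlF : 0 ≤ Real.log F := Real.log_nonneg hF
  have hcc : 0 ≤ 1 + F * r := by positivity
  have hle : Real.posLog ‖R‖ + Real.log F + (1 + F * r) * ∑ j, Real.log (1 + ‖R (x j)‖) +
      Real.posLog N⁻¹ ≤ c := by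
    have e0 : lm N = ENNReal.ofReal (Real.posLog N⁻¹) := by
      unfold lm
      rw [if_neg hf'.ne']
    rw [e0] at h
    have p1 := Real.posLog_nonneg (x := ‖R‖)
    have p2 : 0 ≤ (1 + F * r) * ∑ j, Real.log (1 + ‖R (x j)‖) := mul_nonneg hcc hbn
    rw [← ENNReal.ofReal_sum_of_nonneg (fun j _ => hlog j),
      ← ENNReal.ofReal_mul hcc, ← ENNReal.ofReal_add Real.posLog_nonneg hlF,
      ← ENNReal.ofReal_add (add_nonneg p1 hlF) p2,
      ← ENNReal.ofReal_add (add_nonneg (add_nonneg p1 hlF) p2)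
        Real.posLog_nonneg] at h
    exact (ENNReal.ofReal_le_ofReal_iff hc0).1 h
  have hprod : ∏ j, (1 + F * ‖κ‖ * ‖R (x j)‖) ≤
      Real.exp ((1 + F * r) * ∑ j, Real.log (1 + ‖R (x j)‖)) := by
    rw [Finset.mul_sum, Real.exp_sum]
    refine Finset.prod_le_prod (fun j _ => by positivity) fun j _ => ?_
    exact one_add_le hF0 hr rfl hκ.le (norm_nonneg _)
  have h3 : ‖resolvent (A + κ • K) z‖ ≤ F * ‖R‖ * (∏ j, (1 + F * ‖κ‖ * ‖R (x j)‖)) * N⁻¹ := by
    rw [← div_eq_mul_inv, le_div_iff₀ hf']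
    exact h2
  calc ‖resolvent (A + κ • K) z‖ ≤ F * ‖R‖ * (∏ j, (1 + F * ‖κ‖ * ‖R (x j)‖)) * N⁻¹ := h3
    _ ≤ Real.exp (Real.log F) * Real.exp (Real.posLog ‖R‖) *
        Real.exp ((1 + F * r) * ∑ j, Real.log (1 + ‖R (x j)‖)) * Real.exp (Real.posLog N⁻¹) := by
        have h4 : F = Real.exp (Real.log F) := (Real.exp_log (by linarith)).symm
        have h5 := le_exp_posLog ‖R‖
        have h6 := le_exp_posLog N⁻¹
        have h8 : F ≤ Real.exp (Real.log F) := h4.le
        gcongr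
    _ = Real.exp (Real.posLog ‖R‖ + Real.log F + (1 + F * r) * ∑ j, Real.log (1 + ‖R (x j)‖) +
          Real.posLog N⁻¹) := by
        rw [Real.exp_add, Real.exp_add, Real.exp_add]
        ring
    _ ≤ Real.exp c := Real.exp_le_exp.2 hle

theorem meas_res (A : X →L[ℂ] X) : StronglyMeasurable (fun z : ℂ => resolvent A z) :=
  Pool.Agent.W98.HY.ABV.meas A

theorem meas_res_v (A : X →L[ℂ] X) (v : X) :
    Measurable (fun z : ℂ => ENNReal.ofReal (Real.log (1 + ‖resolvent A z v‖))) := by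
  apply Measurable.ennreal_ofReal
  have h : StronglyMeasurable (fun z : ℂ => resolvent A z v) :=
    ((ContinuousLinearMap.apply ℂ X v).continuous.comp_stronglyMeasurable (meas_res A))
  exact Real.measurable_log.comp (h.norm.measurable.const_add 1)

theorem meas_posLog : Measurable Real.posLog := by
  unfold Real.posLog
  exact measurable_const.max Real.measurable_log

omit [CompleteSpace X] in
theorem cont_det {n : ℕ} (f : Fin n → (X →L[ℂ] ℂ)) (x : Fin n → X) :
    Continuous (fun q : (X →L[ℂ] X) × ℂ => (1 - q.2 • Bm q.1 f x).det) := by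
  have hG : Continuous (fun q : (X →L[ℂ] X) × ℂ => Bm q.1 f x) := by
    apply continuous_matrix
    intro i j
    unfold Bm
    simp only [Matrix.of_apply]
    exact (f i).continuous.comp ((ContinuousLinearMap.apply ℂ X (x j)).continuous.comp
      continuous_fst)
  apply Continuous.matrix_det
  exact continuous_const.sub (continuous_snd.smul hG)

theorem meas_det {n : ℕ} (A : X →L[ℂ] X) (f : Fin n → (X →L[ℂ] ℂ)) (x : Fin n → X) :
    Measurable (fun q : ℂ × ℂ => ‖(1 - q.2 • Bm (resolvent A q.1) f x).det‖) := by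
  have h1 : StronglyMeasurable (fun q : ℂ × ℂ => (resolvent A q.1, q.2)) :=
    ((meas_res A).comp_measurable measurable_fst).prodMk measurable_snd.stronglyMeasurable
  have h2 := Continuous.comp_stronglyMeasurable (cont_det f x) h1
  exact h2.norm.measurable

theorem meas_Phi {n : ℕ} (A : X →L[ℂ] X) (f : Fin n → (X →L[ℂ] ℂ)) (x : Fin n → X) (F r : ℝ) :
    Measurable (Phi A f x F r) := by
  unfold Phi
  refine Measurable.fun_add ?_ ?_
  · refine Measurable.fun_add ?_ ?_
    · apply Measurable.add_const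
      apply Measurable.ennreal_ofReal
      exact meas_posLog.comp ((meas_res A).norm.measurable.comp measurable_fst)
    · apply Measurable.const_mul
      apply Finset.measurable_sum
      intro j _
      exact (meas_res_v A (x j)).comp measurable_fst
  · exact meas_lm.comp (meas_det A f x)

omit [CompleteSpace X] in
/-- the integral over the coupling constant -/
theorem int_kappa (hUP : S_BUP) {m : Measure ℂ} {r F : ℝ} (hr : 0 < r) (hF : 0 ≤ F)
    {C : ℝ≥0} (hC : ∀ (q : Polynomial ℂ) (τ : ℂ) (M : ℝ), q.eval 0 = 1 → 0 ≤ M →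
    (∀ κ : ℂ, ‖κ‖ ≤ 6 * r → ‖q.eval κ * Complex.exp (κ * τ)‖ ≤ Real.exp M) →
    ∫⁻ κ in ball (0:ℂ) r, lm ‖q.eval κ * Complex.exp (κ * τ)‖ ∂m ≤ C * ENNReal.ofReal (M + 1))
    {n : ℕ} (A : X →L[ℂ] X) (f : Fin n → (X →L[ℂ] ℂ)) (x : Fin n → X)
    (hFs : ∑ i, ‖f i‖ ^ 2 ≤ F ^ 2) (z : ℂ) :
    ∫⁻ κ in ball (0:ℂ) r, Phi A f x F r (z, κ) ∂m ≤
      (ENNReal.ofReal (Real.posLog ‖resolvent A z‖) + ENNReal.ofReal (Real.log F) +
        ENNReal.ofReal (1 + F * r) * ∑ j, ENNReal.ofReal (Real.log (1 + ‖resolvent A z (x j)‖))) *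
          m (ball 0 r) +
      C * (ENNReal.ofReal (1 + F * (6 * r)) *
        ∑ j, ENNReal.ofReal (Real.log (1 + ‖resolvent A z (x j)‖)) + 1) := by
  unfold Phi
  simp only
  rw [lintegral_add_left measurable_const, lintegral_const, Measure.restrict_apply_univ]
  gcongr
  have hq : ∀ κ : ℂ, (1 - κ • Bm (resolvent A z) f x).det =
      (Bm (resolvent A z) f x).charpolyRev.eval κ * Complex.exp (κ * 0) := by
    intro κ
    rw [Pool.Agent.Y271.CO.eval_rev, mul_zero, Complex.exp_zero, mul_one]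
  simp only [hq]
  have hlog : ∀ j, 0 ≤ Real.log (1 + ‖resolvent A z (x j)‖) := fun j =>
    Real.log_nonneg (by linarith [norm_nonneg (resolvent A z (x j))])
  have hb : 0 ≤ ∑ j, Real.log (1 + ‖resolvent A z (x j)‖) :=
    Finset.sum_nonneg fun j _ => hlog j
  have hc : 0 ≤ 1 + F * (6 * r) := by positivity
  refine (hC _ _ ((1 + F * (6 * r)) * ∑ j, Real.log (1 + ‖resolvent A z (x j)‖)) ?_
    (mul_nonneg hc hb) ?_).trans ?_
  · exact Matrix.eval_charpolyRev
  · intro κ hκ
    rw [← hq]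
    refine (hUP X n f x (resolvent A z) F κ hF hFs).trans ?_
    rw [Finset.mul_sum, Real.exp_sum]
    refine Finset.prod_le_prod (fun j _ => by positivity) fun j _ => ?_
    exact one_add_le hF (by positivity) rfl hκ (norm_nonneg _)
  · rw [ENNReal.ofReal_add (mul_nonneg hc hb) zero_le_one, ENNReal.ofReal_one,
      ENNReal.ofReal_mul hc, ENNReal.ofReal_sum_of_nonneg (fun j _ => hlog j)]

/-- the finite sections converge in norm -/
theorem sections {K : X →L[ℂ] X} {f : ℕ → (X →L[ℂ] ℂ)} {x : ℕ → X}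
    (hf : Summable (fun j => ‖f j‖ ^ 2)) (hx : Summable (fun j => ‖x j‖ ^ 2))
    (hK : ∀ y, HasSum (fun j => f j y • x j) (K y)) :
    Tendsto (fun n => ∑ j ∈ Finset.range n, (f j).smulRight (x j)) atTop (𝓝 K) := by
  have hs : Summable (fun j => (f j).smulRight (x j)) := by
    refine Summable.of_norm_bounded ((hf.add hx).mul_left (1 / 2)) fun j => ?_
    rw [ContinuousLinearMap.norm_smulRight_apply]
    nlinarith [sq_nonneg (‖f j‖ - ‖x j‖)]
  have h1 := hs.hasSum.tendsto_sum_nat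
  have h2 : K = ∑' j, (f j).smulRight (x j) := by
    ext y
    have h3 := hs.hasSum.mapL (ContinuousLinearMap.apply ℂ X y)
    have h4 : (fun j => (ContinuousLinearMap.apply ℂ X y) ((f j).smulRight (x j))) =
        fun j => f j y • x j := by
      funext j
      simp
    rw [h4] at h3
    exact (hK y).unique h3
  rw [h2]
  exact h1

theorem main (hUP : S_BUP) (hRES : S_BRES) (hPOT : S_POT) : S_NFAT := by
  intro X _ _ _ A K f x hfs hxs hKs U hUo hUfin hnull hint hloc m hm r hr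
  have hlim0 := sections hfs hxs hKs
  obtain ⟨Kn, hKnd⟩ : ∃ Kn : ℕ → (X →L[ℂ] X),
      Kn = fun n => ∑ j ∈ Finset.range n, (f j).smulRight (x j) := ⟨_, rfl⟩
  have hlim : Tendsto Kn atTop (𝓝 K) := by rw [hKnd]; exact hlim0
  have hKn : ∀ n y, Kn n y = ∑ j : Fin n, (fun j : Fin n => f j) j y • (fun j : Fin n => x j) j := by
    intro n y
    rw [hKnd]
    simp only
    rw [sum_apply, Fin.sum_univ_eq_sum_range (fun j => f j y • x j) n]
    rfl
  obtain ⟨F, hFd⟩ : ∃ F : ℝ, F = Real.sqrt (1 + ∑' j, ‖f j‖ ^ 2) := ⟨_, rfl⟩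
  have ht0 : 0 ≤ ∑' j, ‖f j‖ ^ 2 := tsum_nonneg fun j => by positivity
  have hF2 : F ^ 2 = 1 + ∑' j, ‖f j‖ ^ 2 := by rw [hFd]; exact Real.sq_sqrt (by linarith)
  have hF1 : 1 ≤ F := by
    rw [hFd, Real.one_le_sqrt]; linarith
  have hF0 : 0 ≤ F := by linarith
  have hFn : ∀ n, 1 + ∑ i : Fin n, ‖(fun j : Fin n => f j) i‖ ^ 2 ≤ F ^ 2 := by
    intro n
    rw [hF2]
    simp only
    rw [Fin.sum_univ_eq_sum_range (fun j => ‖f j‖ ^ 2) n]
    have := hfs.sum_le_tsum (Finset.range n) (fun j _ => by positivity)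
    linarith
  obtain ⟨S, hSd⟩ : ∃ S : ℝ≥0∞, S = ∑' j, ∫⁻ z in U, ENNReal.ofReal (Real.log (1 + ‖resolvent A z (x j)‖)) :=
    ⟨_, rfl⟩
  have hS : S < ⊤ := by rw [hSd]; exact lt_top_iff_ne_top.2 hloc
  obtain ⟨C1, hC1⟩ := hPOT m hm r hr
  obtain ⟨C2, hC2, -⟩ := hm r
  obtain ⟨b, hbdef⟩ : ∃ b : ℕ → ℂ → ℝ≥0∞,
      b = fun n z => ∑ j : Fin n, ENNReal.ofReal (Real.log (1 + ‖resolvent A z (x j)‖)) := ⟨_, rfl⟩
  have hbm : ∀ n, Measurable (b n) := by
    intro n
    rw [hbdef]
    apply Finset.measurable_sum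
    intro j _
    exact meas_res_v A (x j)
  have hb : ∀ n, ∫⁻ z in U, b n z ≤ S := by
    intro n
    rw [hbdef]
    simp only
    have hsum := lintegral_finsetSum (μ := (volume : Measure ℂ).restrict U)
      (Finset.univ : Finset (Fin n))
      (f := fun (j : Fin n) (z : ℂ) => ENNReal.ofReal (Real.log (1 + ‖resolvent A z (x j)‖)))
      (fun j _ => meas_res_v A (x j))
    rw [hsum, hSd, Fin.sum_univ_eq_sum_range (fun j => ∫⁻ z in U,
        ENNReal.ofReal (Real.log (1 + ‖resolvent A z (x j)‖))) n]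
    exact ENNReal.sum_le_tsum _
  have hfin : IsFiniteMeasure (m.restrict (ball (0:ℂ) r)) :=
    ⟨by rw [Measure.restrict_apply_univ]; exact hC2.trans_lt ENNReal.coe_lt_top⟩
  have hBfin : volume U < ⊤ := lt_top_iff_ne_top.2 hUfin
  have hfinB : IsFiniteMeasure ((volume : Measure ℂ).restrict U) :=
    ⟨by rw [Measure.restrict_apply_univ]; exact hBfin⟩
  have hlm : Measurable fun z => ENNReal.ofReal (Real.posLog ‖resolvent A z‖) :=
    (meas_posLog.comp (meas_res A).norm.measurable).ennreal_ofReal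
  obtain ⟨I0, hI0d⟩ : ∃ I0 : ℝ≥0∞, I0 = ∫⁻ z in U, ENNReal.ofReal (Real.posLog ‖resolvent A z‖) :=
    ⟨_, rfl⟩
  have hI0 : I0 < ⊤ := by
    have h1 := hint.2
    rw [hasFiniteIntegral_iff_ofReal (ae_of_all _ fun z => Real.posLog_nonneg)] at h1
    rw [hI0d]
    exact h1
  obtain ⟨T, hTd⟩ : ∃ T : ℝ≥0∞,
      T = (I0 + ENNReal.ofReal (Real.log F) * volume U + ENNReal.ofReal (1 + F * r) * S) * C2 +
        C1 * (ENNReal.ofReal (1 + F * (6 * r)) * S + volume U) := ⟨_, rfl⟩
  have hT : T < ⊤ := by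
    rw [hTd]
    refine ENNReal.add_lt_top.2 ⟨ENNReal.mul_lt_top (ENNReal.add_lt_top.2
      ⟨ENNReal.add_lt_top.2 ⟨hI0, ENNReal.mul_lt_top ENNReal.ofReal_lt_top hBfin⟩,
        ENNReal.mul_lt_top ENNReal.ofReal_lt_top hS⟩)
      ENNReal.coe_lt_top, ENNReal.mul_lt_top ENNReal.coe_lt_top (ENNReal.add_lt_top.2
        ⟨ENNReal.mul_lt_top ENNReal.ofReal_lt_top hS, hBfin⟩)⟩
  have hPhi : ∀ n, ∫⁻ q, Phi A (fun j : Fin n => f j) (fun j : Fin n => x j) F r q
      ∂(((volume : Measure ℂ).restrict U).prod (m.restrict (ball (0:ℂ) r))) ≤ T := by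
    intro n
    rw [lintegral_prod _ (meas_Phi A (fun j : Fin n => f j) (fun j : Fin n => x j) F r).aemeasurable]
    calc ∫⁻ z in U, ∫⁻ κ in ball (0:ℂ) r,
          Phi A (fun j : Fin n => f j) (fun j : Fin n => x j) F r (z, κ) ∂m
        ≤ ∫⁻ z in U, ((ENNReal.ofReal (Real.posLog ‖resolvent A z‖) + ENNReal.ofReal (Real.log F) +
            ENNReal.ofReal (1 + F * r) * b n z) * C2 +
            C1 * (ENNReal.ofReal (1 + F * (6 * r)) * b n z + 1)) := by
          apply lintegral_mono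
          intro z
          have hFn' : ∑ i : Fin n, ‖(fun j : Fin n => f j) i‖ ^ 2 ≤ F ^ 2 := by
            have := hFn n
            linarith
          refine (int_kappa hUP hr hF0 hC1 A (fun j : Fin n => f j) (fun j : Fin n => x j)
            hFn' z).trans ?_
          simp only [hbdef]
          gcongr
      _ = (I0 + ENNReal.ofReal (Real.log F) * volume U +
            ENNReal.ofReal (1 + F * r) * ∫⁻ z in U, b n z) * C2 +
            C1 * (ENNReal.ofReal (1 + F * (6 * r)) * (∫⁻ z in U, b n z) + volume U) := by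
          have hm1 : Measurable fun z => ENNReal.ofReal (1 + F * r) * b n z :=
            (hbm n).const_mul _
          have hm2 : Measurable fun z => ENNReal.ofReal (1 + F * (6 * r)) * b n z :=
            (hbm n).const_mul _
          have hm3 : Measurable fun z => ENNReal.ofReal (Real.posLog ‖resolvent A z‖) +
              ENNReal.ofReal (Real.log F) := hlm.add_const _
          have hm4 : Measurable fun z => ENNReal.ofReal (Real.posLog ‖resolvent A z‖) +
              ENNReal.ofReal (Real.log F) + ENNReal.ofReal (1 + F * r) * b n z := hm3.add hm1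
          have hm5 : Measurable fun z => ENNReal.ofReal (1 + F * (6 * r)) * b n z + 1 :=
            hm2.add_const 1
          rw [lintegral_add_left (hm4.mul_const _), lintegral_mul_const _ hm4,
            lintegral_const_mul _ hm5, lintegral_add_left hm3, lintegral_add_left hlm,
            lintegral_const_mul _ (hbm n), lintegral_add_left hm2, lintegral_const_mul _ (hbm n),
            lintegral_one, lintegral_const, Measure.restrict_apply_univ, ← hI0d]
      _ ≤ T := by
          rw [hTd]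
          gcongr
          · exact hb n
          · exact hb n
  obtain ⟨L, hLd⟩ : ∃ L : ℂ × ℂ → ℝ≥0∞,
      L = fun q => liminf (fun n => Phi A (fun j : Fin n => f j) (fun j : Fin n => x j) F r q)
        atTop := ⟨_, rfl⟩
  have hLm : Measurable L := by
    rw [hLd]
    exact Measurable.liminf fun n => meas_Phi A (fun j : Fin n => f j) (fun j : Fin n => x j) F r
  have hL : ∫⁻ q, L q ∂(((volume : Measure ℂ).restrict U).prod (m.restrict (ball (0:ℂ) r))) ≤ T := by
    rw [hLd]
    refine (lintegral_liminf_le fun n =>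
      meas_Phi A (fun j : Fin n => f j) (fun j : Fin n => x j) F r).trans ?_
    exact liminf_le_of_frequently_le' (Frequently.of_forall hPhi)
  have hL2 : ∀ᵐ κ ∂(m.restrict (ball (0:ℂ) r)), ∫⁻ z in U, L (z, κ) < ⊤ := by
    rw [lintegral_prod_symm _ hLm.aemeasurable] at hL
    refine ae_lt_top ?_ (hL.trans_lt hT).ne
    exact hLm.lintegral_prod_left'
  filter_upwards [hL2, ae_restrict_mem measurableSet_ball] with κ h1 h2
  have hz : ∀ᵐ z ∂((volume : Measure ℂ).restrict U), z ∈ resolventSet ℂ (A + κ • K) ∧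
      ENNReal.ofReal (Real.posLog ‖resolvent (A + κ • K) z‖) ≤ L (z, κ) := by
    have h3 : ∀ᵐ z ∂((volume : Measure ℂ).restrict U), L (z, κ) < ⊤ :=
      ae_lt_top (hLm.comp measurable_prodMk_right) h1.ne
    have h4 : ∀ᵐ z ∂((volume : Measure ℂ).restrict U), z ∈ resolventSet ℂ A := by
      rw [ae_iff]
      have h5 : ((volume : Measure ℂ).restrict U) (spectrum ℂ A) = 0 := by
        rw [Measure.restrict_apply' hUo.measurableSet]
        exact hnull
      exact h5
    filter_upwards [h3, h4] with z h3 h4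
    have key : ∀ c : ℝ, (L (z, κ)).toReal < c → z ∈ resolventSet ℂ (A + κ • K) ∧
        ‖resolvent (A + κ • K) z‖ ≤ Real.exp c := by
      intro c hc
      apply res_lim (T := fun n => A + κ • Kn n) (tendsto_const_nhds.add (hlim.const_smul κ)) z
      have h5 : L (z, κ) < ENNReal.ofReal c := (ENNReal.lt_ofReal_iff_toReal_lt h3.ne).2 hc
      rw [hLd] at h5
      have h6 : ∃ᶠ n in atTop, Phi A (fun j : Fin n => f j) (fun j : Fin n => x j) F r (z, κ) <
          ENNReal.ofReal c := frequently_lt_of_liminf_lt (by isBoundedDefault) h5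
      have hc0 : 0 ≤ c := ENNReal.toReal_nonneg.trans hc.le
      exact h6.mono fun n hn => phi_le hRES A (Kn n) (fun j : Fin n => f j)
        (fun j : Fin n => x j) hF1 (hFn n) (hKn n) hc0 h4 (by simpa using h2) hn.le
    refine ⟨(key _ (lt_add_one _)).1, ?_⟩
    rw [ENNReal.ofReal_le_iff_le_toReal h3.ne]
    apply le_of_forall_gt_imp_ge_of_dense
    intro c hc
    exact posLog_le_of_le_exp (norm_nonneg _) (ENNReal.toReal_nonneg.trans hc.le) (key c hc).2
  constructor
  · have h7 : ((volume : Measure ℂ).restrict U) (spectrum ℂ (A + κ • K)) = 0 := by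
      have h8 := hz.mono fun z h => h.1
      rw [ae_iff] at h8
      exact h8
    rwa [Measure.restrict_apply' hUo.measurableSet] at h7
  · refine ⟨(meas_posLog.comp (meas_res (A + κ • K)).norm.measurable).aestronglyMeasurable, ?_⟩
    rw [hasFiniteIntegral_iff_ofReal (ae_of_all _ fun z => Real.posLog_nonneg)]
    exact (lintegral_mono_ae (hz.mono fun z h => h.2)).trans_lt h1

end Pool.Agent.R276.NC.Fat
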