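import Pool.Agent.R276.NC.Stm
import Pool.Agent.R276.CP.Fin
import Pool.Agent.Y271.CO.Iso

/-!
# Project NC, assembly
-/

set_option autoImplicit false

namespace Pool.Agent.R276.NC.Fin

open MeasureTheory Set Metric Filter Topology
open scoped ENNReal NNReal InnerProductSpace
open Pool.Agent.R276.CP (LogBd)
open Pool.Agent.Y271.CO

section Banach

variable {X : Type} [NormedAddCommGroup X] [NormedSpace ℂ X] [CompleteSpace X]

/-- the data of the perturbation -/
structure Nuc (K : X →L[ℂ] X) (f : ℕ → (X →L[ℂ] ℂ)) (x : ℕ → X) : Prop where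
  hf : Summable (fun j => ‖f j‖ ^ 2)
  hx : Summable (fun j => ‖x j‖ ^ 2)
  hK : ∀ y, HasSum (fun j => f j y • x j) (K y)

/-- partial sums -/
noncomputable def Kn (f : ℕ → (X →L[ℂ] ℂ)) (x : ℕ → X) (n : ℕ) : X →L[ℂ] X :=
  ∑ j ∈ Finset.range n, (f j).smulRight (x j)

theorem tendsto_Kn {K : X →L[ℂ] X} {f : ℕ → (X →L[ℂ] ℂ)} {x : ℕ → X} (h : Nuc K f x) :
    Tendsto (Kn f x) atTop (𝓝 K) := by
  have h1 : Summable (fun j => (f j).smulRight (x j)) := by
    refine Summable.of_norm_bounded (h.hf.add h.hx) fun j => ?_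
    rw [ContinuousLinearMap.norm_smulRight_apply]
    nlinarith [sq_nonneg (‖f j‖ - ‖x j‖), sq_nonneg (‖f j‖), sq_nonneg (‖x j‖)]
  have h2 : (∑' j, (f j).smulRight (x j)) = K := by
    ext y
    have h3 := (ContinuousLinearMap.apply ℂ X y).hasSum h1.hasSum
    exact h3.unique (h.hK y)
  have h4 := h1.hasSum.tendsto_sum_nat
  rw [h2] at h4
  exact h4

theorem fin_Kn (f : ℕ → (X →L[ℂ] ℂ)) (x : ℕ → X) (n : ℕ) (c : ℂ) :
    FiniteDimensional ℂ (LinearMap.range ((c • Kn f x n : X →L[ℂ] X) : X →ₗ[ℂ] X)) := by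
  have : FiniteDimensional ℂ (Submodule.span ℂ (Set.range fun j : Fin n => x j)) :=
    FiniteDimensional.span_of_finite ℂ (Set.finite_range _)
  have h1 : LinearMap.range ((c • Kn f x n : X →L[ℂ] X) : X →ₗ[ℂ] X) ≤
      Submodule.span ℂ (Set.range fun j : Fin n => x j) := by
    rintro _ ⟨y, rfl⟩
    have e : ((c • Kn f x n : X →L[ℂ] X) : X →ₗ[ℂ] X) y =
        c • ∑ j ∈ Finset.range n, f j y • x j := by
      simp [Kn]
    rw [e]
    refine Submodule.smul_mem _ _ (Submodule.sum_mem _ fun j hj => ?_)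
    exact Submodule.smul_mem _ _ (Submodule.subset_span ⟨⟨j, Finset.mem_range.1 hj⟩, rfl⟩)
  exact Submodule.finiteDimensional_of_le h1

/-- the Weyl spectrum is contained in the spectrum of `A + κ K` -/
theorem weyl_sub (A : X →L[ℂ] X) {K : X →L[ℂ] X} {f : ℕ → (X →L[ℂ] ℂ)} {x : ℕ → X}
    (h : Nuc K f x) (κ c : ℂ) (hc : c ∈ weyl A) : c ∈ spectrum ℂ (A + κ • K) := by
  by_contra hcon
  rw [spectrum.notMem_iff] at hcon
  have h1 : Tendsto (fun n => algebraMap ℂ (X →L[ℂ] X) c - (A + κ • Kn f x n)) atTop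
      (𝓝 (algebraMap ℂ (X →L[ℂ] X) c - (A + κ • K))) :=
    tendsto_const_nhds.sub (tendsto_const_nhds.add ((tendsto_Kn h).const_smul κ))
  have h2 : ∀ᶠ n in atTop, IsUnit (algebraMap ℂ (X →L[ℂ] X) c - (A + κ • Kn f x n)) :=
    h1.eventually (Units.isOpen.mem_nhds hcon)
  obtain ⟨n, hn⟩ := h2.exists
  have h3 := hc (κ • Kn f x n) (fin_Kn f x n κ)
  rw [spectrum.mem_iff] at h3
  exact h3 hn

theorem ae_of_balls {m : Measure ℂ} {P : ℂ → Prop}
    (h : ∀ r : ℝ, 0 < r → ∀ᵐ κ ∂(m.restrict (ball (0:ℂ) r)), P κ) : ∀ᵐ κ ∂m, P κ := by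
  have h1 := (ae_restrict_iUnion_iff (μ := m) (fun r : ℕ => ball (0:ℂ) ((r : ℝ) + 1)) P).2
    (fun r => h _ (by positivity))
  have h2 : (⋃ r : ℕ, ball (0:ℂ) ((r : ℝ) + 1)) = univ := by
    rw [eq_univ_iff_forall]
    intro z
    obtain ⟨r, hr⟩ := exists_nat_gt ‖z‖
    exact mem_iUnion.2 ⟨r, mem_ball_zero_iff.2 (by linarith)⟩
  rwa [h2, Measure.restrict_univ] at h1

/-- hyperinvariant subspaces for almost every coupling -/
theorem hyper (hNFAT : S_NFAT) (A K : X →L[ℂ] X) (f : ℕ → (X →L[ℂ] ℂ)) (x : ℕ → X)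
    (h : Nuc K f x) {U : Set ℂ} (hU : IsOpen U) (h0 : volume (spectrum ℂ A ∩ U) = 0)
    (hI : IntegrableOn (fun z : ℂ => Real.posLog ‖resolvent A z‖) U)
    (hS : ∑' j, ∫⁻ z in U, ENNReal.ofReal (Real.log (1 + ‖resolvent A z (x j)‖)) ≠ ⊤)
    (hU1 : (weyl A ∩ U).Nonempty) (hU2 : (weyl A).Nontrivial)
    (m : Measure ℂ) (hm : LogBd m) : ∀ᵐ κ ∂m, HasHyper (A + κ • K) := by
  obtain ⟨c₁, hc₁, hc₁U⟩ := hU1
  obtain ⟨c₂, hc₂, hc⟩ := hU2.exists_ne c₁
  obtain ⟨V, hV⟩ : ∃ V : Set ℂ, V = U ∩ ball 0 (‖c₁‖ + 1) := ⟨_, rfl⟩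
  have hVU : V ⊆ U := by rw [hV]; exact inter_subset_left
  have hVo : IsOpen V := by rw [hV]; exact hU.inter isOpen_ball
  have hVf : volume V ≠ ⊤ := by
    refine ne_top_of_le_ne_top (measure_ball_lt_top (μ := (volume : Measure ℂ))
      (x := (0 : ℂ)) (r := ‖c₁‖ + 1)).ne ?_
    rw [hV]
    exact measure_mono inter_subset_right
  have h1V : c₁ ∈ V := by
    rw [hV]
    refine ⟨hc₁U, ?_⟩
    rw [mem_ball_zero_iff]
    linarith
  have h0V : volume (spectrum ℂ A ∩ V) = 0 :=
    measure_mono_null (inter_subset_inter_right _ hVU) h0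
  have hSV : ∑' j, ∫⁻ z in V, ENNReal.ofReal (Real.log (1 + ‖resolvent A z (x j)‖)) ≠ ⊤ := by
    refine ne_top_of_le_ne_top hS (ENNReal.tsum_le_tsum fun j => ?_)
    exact lintegral_mono_set hVU
  refine ae_of_balls fun r hr => ?_
  filter_upwards [hNFAT X A K f x h.hf h.hx h.hK V hVo hVf h0V (hI.mono_set hVU) hSV m hm r hr]
    with κ hκ
  obtain ⟨g1, g2⟩ := hκ
  have hs1 : c₁ ∈ spectrum ℂ (A + κ • K) := weyl_sub A h κ c₁ hc₁
  have hs2 : c₂ ∈ spectrum ℂ (A + κ • K) := weyl_sub A h κ c₂ hc₂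
  by_cases hn : (spectrum ℂ (A + κ • K) ∩ V).Nontrivial
  · exact Pool.Agent.W610.HY.Cor.glob Pool.Agent.W610.HY.Reduct.loc Pool.Agent.W19.HY.RES.main
      Pool.Agent.W610.HY.Fin.hMEAS (A + κ • K) V hVo hn g1 g2
  · rw [not_nontrivial_iff] at hn
    exact isolated (A + κ • K) hs1 hs2 hc hVo h1V fun z hz hzV => hn ⟨hz, hzV⟩ ⟨hs1, h1V⟩

end Banach

section Hilbert

variable {H : Type} [NormedAddCommGroup H] [InnerProductSpace ℂ H] [CompleteSpace H]

/-- compactness of the perturbation and of its adjoint -/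
theorem compact {K : H →L[ℂ] H} {f : ℕ → (H →L[ℂ] ℂ)} {x : ℕ → H} (h : Nuc K f x) :
    IsCompactOperator K ∧ IsCompactOperator (ContinuousLinearMap.adjoint K) := by
  have h1 : ∀ n, FiniteDimensional ℂ (LinearMap.range ((Kn f x n : H →L[ℂ] H) : H →ₗ[ℂ] H)) := by
    intro n
    have := fin_Kn f x n 1
    rwa [one_smul] at this
  constructor
  · exact isCompactOperator_of_tendsto (tendsto_Kn h) (Eventually.of_forall fun n =>
      Pool.Agent.Y271.CO.finrank_compact _ (h1 n))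
  · have h8 : Tendsto (fun n => ContinuousLinearMap.adjoint (Kn f x n)) atTop
        (𝓝 (ContinuousLinearMap.adjoint K)) :=
      (ContinuousLinearMap.adjoint (𝕜 := ℂ) (E := H) (F := H)).continuous.continuousAt.tendsto.comp
        (tendsto_Kn h)
    refine isCompactOperator_of_tendsto h8 (Eventually.of_forall fun n => ?_)
    apply Pool.Agent.Y271.CO.finrank_compact
    have : FiniteDimensional ℂ (Submodule.span ℂ (Set.range fun j : Fin n =>
        (InnerProductSpace.toDual ℂ H).symm (f j))) :=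
      FiniteDimensional.span_of_finite ℂ (Set.finite_range _)
    have h2 : LinearMap.range ((ContinuousLinearMap.adjoint (Kn f x n) : H →L[ℂ] H) : H →ₗ[ℂ] H) ≤
        Submodule.span ℂ (Set.range fun j : Fin n =>
          (InnerProductSpace.toDual ℂ H).symm (f j)) := by
      rintro _ ⟨y, rfl⟩
      have e : ((ContinuousLinearMap.adjoint (Kn f x n) : H →L[ℂ] H) : H →ₗ[ℂ] H) y =
          ∑ j ∈ Finset.range n, ⟪x j, y⟫_ℂ • (InnerProductSpace.toDual ℂ H).symm (f j) := by
        refine ext_inner_right ℂ fun w => ?_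
        rw [ContinuousLinearMap.coe_coe, ContinuousLinearMap.adjoint_inner_left, sum_inner]
        simp only [Kn, ContinuousLinearMap.sum_apply, ContinuousLinearMap.smulRight_apply,
          inner_sum, inner_smul_right, inner_smul_left, inner_conj_symm,
          InnerProductSpace.toDual_symm_apply]
        exact Finset.sum_congr rfl fun j _ => mul_comm _ _
      rw [e]
      refine Submodule.sum_mem _ fun j hj => ?_
      exact Submodule.smul_mem _ _ (Submodule.subset_span ⟨⟨j, Finset.mem_range.1 hj⟩, rfl⟩)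
    exact Submodule.finiteDimensional_of_le h2

open Pool.Agent.R276.CP.Fin in
/-- reductive operators `A + L`, `A` with compact self-commutator, `L` compact -/
theorem reductive (A L : H →L[ℂ] H) (hA : IsCompactOperator (Pool.Agent.W706.HIR.sc A))
    (hL : IsCompactOperator L) (hL' : IsCompactOperator (ContinuousLinearMap.adjoint L))
    (h : LogInt (A + L)) (hred : Pool.Agent.W706.HIR.Reductive (A + L)) :
    IsStarNormal (A + L) := by
  obtain ⟨R, hR⟩ := exists_nat_gt ‖A + L‖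
  obtain ⟨g1, g2⟩ := h R
  have hsub : spectrum ℂ (A + L) ⊆ ball 0 (R : ℝ) := by
    intro z hz
    rw [mem_ball_zero_iff]
    rcases subsingleton_or_nontrivial H with hH | hH
    · have h1 : spectrum ℂ (A + L) = ∅ := spectrum.of_subsingleton (R := ℂ) (A + L)
      rw [h1] at hz
      exact absurd hz (notMem_empty _)
    exact (spectrum.norm_le_norm_of_mem hz).trans_lt hR
  rw [inter_eq_left.2 hsub] at g1
  refine Pool.Agent.W610.HY.Reduct.normal (A + L) hred ?_ (ball 0 (R : ℝ)) isOpen_ball hsub g1 g2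
  have e : Pool.Agent.W706.HIR.sc (A + L) = Pool.Agent.W706.HIR.sc A +
      ((ContinuousLinearMap.adjoint A * L - L * ContinuousLinearMap.adjoint A) +
      (ContinuousLinearMap.adjoint L * A - A * ContinuousLinearMap.adjoint L) +
      (ContinuousLinearMap.adjoint L * L - L * ContinuousLinearMap.adjoint L)) := by
    unfold Pool.Agent.W706.HIR.sc
    rw [map_add, add_mul, mul_add, mul_add, add_mul, mul_add, mul_add]
    abel
  rw [e]
  have c1 := (clm_comp_left (ContinuousLinearMap.adjoint A) L hL).sub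
    (clm_comp_right L (ContinuousLinearMap.adjoint A) hL)
  have c2 := (clm_comp_right (ContinuousLinearMap.adjoint L) A hL').sub
    (clm_comp_left A (ContinuousLinearMap.adjoint L) hL')
  have c3 := (clm_comp_left (ContinuousLinearMap.adjoint L) L hL).sub
    (clm_comp_left L (ContinuousLinearMap.adjoint L) hL')
  exact hA.add ((c1.add c2).add c3)

end Hilbert

end Pool.Agent.R276.NC.Fin
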