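import Pool.Agent.R276.NC.Stm
import Pool.Agent.R276.CP.Loc
import Pool.Agent.W98.HY.ABV

/-!
# Part NC-D: resolvents with power growth near a thin spectrum
-/

set_option autoImplicit false

namespace Pool.Agent.R276.NC.Pow

open MeasureTheory Set Metric Filter Topology
open scoped ENNReal NNReal
open Pool.Agent.R276.CP.Loc (KK layer KK_lt_top)

theorem log_le {t s : ℝ} (ht : 0 ≤ t) (hs : 0 < s) (hs1 : s ≤ 1) :
    Real.log (1 + t) ≤ t ^ s / s := by
  have h1 : (1 + t) ^ s ≤ 1 + t ^ s := by
    have := Real.rpow_add_le_add_rpow zero_le_one ht hs.le hs1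
    rwa [Real.one_rpow] at this
  have h2 : 0 < 1 + t := by linarith
  have h3 : s * Real.log (1 + t) = Real.log ((1 + t) ^ s) := (Real.log_rpow h2 s).symm
  have h4 : Real.log ((1 + t) ^ s) ≤ (1 + t) ^ s - 1 :=
    Real.log_le_sub_one_of_pos (Real.rpow_pos_of_pos h2 s)
  rw [le_div_iff₀ hs]
  linarith

theorem posLog_le {t : ℝ} (ht : 0 ≤ t) : Real.posLog t ≤ Real.log (1 + t) := by
  rw [Real.posLog]
  refine max_le (Real.log_nonneg (by linarith)) ?_
  rcases ht.eq_or_lt with rfl | h
  · simp
  · exact Real.log_le_log h (by linarith)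

theorem meas_posLog : Measurable Real.posLog := by
  unfold Real.posLog
  exact measurable_const.max Real.measurable_log

theorem main : S_POW := by
  intro X _ _ _ _ A x C k ε s R hk hε hs hs1 hsk hthin hres hsum
  set σ := spectrum ℂ A with hσ
  set B := ball (0 : ℂ) R with hB
  have hσne : σ.Nonempty := spectrum.nonempty A
  have hσcl : IsClosed σ := spectrum.isClosed A
  have hBfin : volume B < ⊤ := measure_ball_lt_top
  have hDm : Measurable (fun z => infDist z σ) := (continuous_infDist_pt σ).measurable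
  have hsk0 : 0 < s * k := mul_pos hs hk
  set c : ℝ := |C| ^ s / s with hc
  have hc0 : 0 ≤ c := by positivity
  set G : ℂ → ℝ≥0∞ := fun z => (ENNReal.ofReal (infDist z σ)) ^ (-(s * k)) with hG
  have hGm : Measurable G := hDm.ennreal_ofReal.pow_const _
  have hGi : ∫⁻ z in B, G z < ⊤ := by
    have h1 := layer (volume.restrict B) (fun z => infDist z σ) hDm C ε (s * k) hsk0.le
      (fun δ h0 h1 => (Measure.restrict_apply_le _ _).trans (hthin δ h0 h1))
    rw [Measure.restrict_apply_univ] at h1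
    exact h1.trans_lt (ENNReal.add_lt_top.2 ⟨hBfin, KK_lt_top hsk⟩)
  have hvol : volume (σ ∩ B) = 0 := by
    have h1 := ae_lt_top hGm hGi.ne
    rw [ae_iff, Measure.restrict_apply₀' measurableSet_ball.nullMeasurableSet] at h1
    refine measure_mono_null ?_ h1
    rintro z ⟨hz1, hz2⟩
    refine ⟨?_, hz2⟩
    show ¬ G z < ⊤
    simp only [hG]
    rw [infDist_zero_of_mem hz1, ENNReal.ofReal_zero, ENNReal.zero_rpow_of_neg (by linarith)]
    exact lt_irrefl _
  -- bound of the resolvent
  have key : ∀ z ∈ B, ∀ (t b : ℝ), 0 ≤ b → 0 ≤ t → t ≤ ‖resolvent A z‖ * b →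
      ENNReal.ofReal (Real.log (1 + t)) ≤ ENNReal.ofReal (c * b ^ s) * G z := by
    intro z hz t b hb ht htb
    by_cases hzσ : z ∈ σ
    · have h1 : resolvent A z = 0 := by
        unfold resolvent
        apply Ring.inverse_non_unit
        exact spectrum.mem_iff.1 hzσ
      rw [h1, norm_zero, zero_mul] at htb
      have h2 : t = 0 := le_antisymm htb ht
      rw [h2, add_zero, Real.log_one, ENNReal.ofReal_zero]
      exact zero_le
    · have hD : 0 < infDist z σ := (hσcl.notMem_iff_infDist_pos hσne).1 hzσ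
      have hzR : ‖z‖ < R := by rwa [hB, mem_ball_zero_iff] at hz
      have h1 := hres z hzσ hzR
      have h2 : ‖resolvent A z‖ ≤ |C| * infDist z σ ^ (-k) :=
        h1.trans (mul_le_mul_of_nonneg_right (le_abs_self C) (Real.rpow_nonneg hD.le _))
      have h3 : t ≤ |C| * infDist z σ ^ (-k) * b := htb.trans (mul_le_mul_of_nonneg_right h2 hb)
      have h4 : t ^ s ≤ (|C| * infDist z σ ^ (-k) * b) ^ s := Real.rpow_le_rpow ht h3 hs.le
      have h5 : (|C| * infDist z σ ^ (-k) * b) ^ s = |C| ^ s * infDist z σ ^ (-(s * k)) * b ^ s := by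
        rw [Real.mul_rpow (by positivity) hb, Real.mul_rpow (abs_nonneg C) (by positivity),
          ← Real.rpow_mul hD.le]
        congr 3
        ring
      have h6 := log_le ht hs hs1
      have h7 : G z = ENNReal.ofReal (infDist z σ ^ (-(s * k))) := by
        simp only [hG]
        rw [ENNReal.ofReal_rpow_of_pos hD]
      rw [h7, ← ENNReal.ofReal_mul (by positivity)]
      refine ENNReal.ofReal_le_ofReal (h6.trans ?_)
      rw [h5] at h4
      calc t ^ s / s ≤ (|C| ^ s * infDist z σ ^ (-(s * k)) * b ^ s) / s :=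
            div_le_div_of_nonneg_right h4 hs.le
        _ = c * b ^ s * infDist z σ ^ (-(s * k)) := by rw [hc]; ring
  refine ⟨hvol, ?_, ?_⟩
  · have hm : Measurable (fun z : ℂ => Real.posLog ‖resolvent A z‖) :=
      meas_posLog.comp (Pool.Agent.W98.HY.ABV.meas A).norm.measurable
    refine ⟨hm.aestronglyMeasurable, ?_⟩
    unfold HasFiniteIntegral
    have h1 : ∀ z ∈ B, ‖Real.posLog ‖resolvent A z‖‖ₑ ≤ ENNReal.ofReal c * G z := by
      intro z hz
      rw [Real.enorm_of_nonneg Real.posLog_nonneg]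
      have h2 := key z hz ‖resolvent A z‖ 1 zero_le_one (norm_nonneg _) (by rw [mul_one])
      rw [Real.one_rpow, mul_one] at h2
      exact (ENNReal.ofReal_le_ofReal (posLog_le (norm_nonneg _))).trans h2
    calc ∫⁻ z in B, ‖Real.posLog ‖resolvent A z‖‖ₑ ≤ ∫⁻ z in B, ENNReal.ofReal c * G z :=
          setLIntegral_mono' measurableSet_ball h1
      _ = ENNReal.ofReal c * ∫⁻ z in B, G z := lintegral_const_mul _ hGm
      _ < ⊤ := ENNReal.mul_lt_top ENNReal.ofReal_lt_top hGi
  · have h1 : ∀ j, ∫⁻ z in B, ENNReal.ofReal (Real.log (1 + ‖resolvent A z (x j)‖)) ≤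
        ENNReal.ofReal (c * ‖x j‖ ^ s) * ∫⁻ z in B, G z := by
      intro j
      rw [← lintegral_const_mul _ hGm]
      refine setLIntegral_mono' measurableSet_ball (fun z hz => ?_)
      exact key z hz _ _ (norm_nonneg _) (norm_nonneg _) ((resolvent A z).le_opNorm (x j))
    have h2 := ENNReal.tsum_le_tsum h1
    rw [ENNReal.tsum_mul_right] at h2
    refine (h2.trans_lt (ENNReal.mul_lt_top ?_ hGi)).ne
    rw [← ENNReal.ofReal_tsum_of_nonneg (fun j => by positivity) (hsum.mul_left c)]
    exact ENNReal.ofReal_lt_top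

end Pool.Agent.R276.NC.Pow
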