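import Pool.Agent.R276.NC.Stm
import Pool.Agent.Y271.CO.Res

/-!
# Part NC-B (helper139): the bound for the resolvent of a finite rank perturbation on a Banach
space, uniform in the rank
-/

set_option autoImplicit false

namespace Pool.Agent.R276.NC.Rs

open MeasureTheory Set Metric Filter Topology Pool.Agent.R276.NC Matrix
open Pool.Agent.Y271.CO (Mx op res_formula op_apply)
open Pool.Agent.R276.CP (S_HAD)
open scoped ENNReal NNReal

/-- the column inequality -/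
theorem col {n : ℕ} (v : Fin n → ℂ) (w S : ℝ) (hS : 0 ≤ S) (j : Fin n)
    (h : ∑ i, ‖v i‖ ^ 2 + w ≤ S ^ 2) (hw : 0 ≤ w) :
    ∑ i, ‖(1 : Matrix (Fin n) (Fin n) ℂ) i j - v i‖ ^ 2 + w ≤ (1 + S) ^ 2 := by
  have h1 : ∑ i, ‖(1 : Matrix (Fin n) (Fin n) ℂ) i j - v i‖ ^ 2 =
      ‖1 - v j‖ ^ 2 + ∑ i ∈ Finset.univ.erase j, ‖v i‖ ^ 2 := by
    rw [← Finset.add_sum_erase _ _ (Finset.mem_univ j)]
    congr 1
    · rw [Matrix.one_apply_eq]
    · refine Finset.sum_congr rfl fun i hi => ?_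
      rw [Matrix.one_apply_ne (Finset.ne_of_mem_erase hi), zero_sub, norm_neg]
  have h2 : ∑ i, ‖v i‖ ^ 2 = ‖v j‖ ^ 2 + ∑ i ∈ Finset.univ.erase j, ‖v i‖ ^ 2 :=
    (Finset.add_sum_erase _ _ (Finset.mem_univ j)).symm
  have h3 : 0 ≤ ∑ i ∈ Finset.univ.erase j, ‖v i‖ ^ 2 :=
    Finset.sum_nonneg fun i _ => by positivity
  have h4 : ‖v j‖ ≤ S := by
    refine le_of_sq_le_sq ?_ hS
    linarith
  have h5 : ‖1 - v j‖ ≤ 1 + ‖v j‖ := by
    refine (norm_sub_le _ _).trans ?_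
    rw [norm_one]
  have h6 : ‖1 - v j‖ ^ 2 ≤ (1 + ‖v j‖) ^ 2 := pow_le_pow_left₀ (norm_nonneg _) h5 2
  rw [h1]
  nlinarith

section

variable {X : Type} [NormedAddCommGroup X] [NormedSpace ℂ X] {n : ℕ}

/-- the coordinates -/
noncomputable def Fm (f : Fin n → (X →L[ℂ] ℂ)) : X →L[ℂ] (Fin n → ℂ) :=
  ContinuousLinearMap.pi f

/-- the synthesis operator -/
noncomputable def J (x : Fin n → X) : (Fin n → ℂ) →L[ℂ] X :=
  ∑ j, (ContinuousLinearMap.proj j : (Fin n → ℂ) →L[ℂ] ℂ).smulRight (x j)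

theorem Fm_apply (f : Fin n → (X →L[ℂ] ℂ)) (y : X) (i : Fin n) : Fm f y i = f i y := rfl

theorem J_apply (x : Fin n → X) (w : Fin n → ℂ) : J x w = ∑ j, w j • x j := by
  simp [J, _root_.sum_apply]

theorem Mx_eq (f : Fin n → (X →L[ℂ] ℂ)) (x : Fin n → X) (R : X →L[ℂ] X) :
    Mx (Fm f) (J x) R = Bm R f x := by
  ext i j
  simp only [Mx, Bm, Matrix.of_apply, Fm_apply, J_apply]
  congr 2
  simp [Pi.single_apply]

/-- the bordered matrix -/
noncomputable def bord (R : X →L[ℂ] X) (f : Fin n → (X →L[ℂ] ℂ)) (x : Fin n → X) (κ : ℂ) (y : X)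
    (g : X →L[ℂ] ℂ) : Matrix (Fin n ⊕ Unit) (Fin n ⊕ Unit) ℂ :=
  Matrix.fromBlocks (1 - κ • Bm R f x) (Matrix.of fun i _ => f i (R y))
    (Matrix.of fun _ j => -κ * g (R (x j))) (Matrix.of fun _ _ => g (R y))

theorem det_bord (R : X →L[ℂ] X) (f : Fin n → (X →L[ℂ] ℂ)) (x : Fin n → X) (κ : ℂ) (y : X)
    (g : X →L[ℂ] ℂ) (N : Matrix (Fin n) (Fin n) ℂ) (h1 : (1 - κ • Bm R f x) * N = 1)
    (h2 : N * (1 - κ • Bm R f x) = 1) :
    (bord R f x κ y g).det = (1 - κ • Bm R f x).det *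
      g (R y + κ • R (J x (op N (Fm f (R y))))) := by
  let _ : Invertible (1 - κ • Bm R f x) := ⟨N, h2, h1⟩
  have hN : ⅟(1 - κ • Bm R f x) = N := rfl
  rw [bord, Matrix.det_fromBlocks₁₁, hN]
  congr 1
  rw [Matrix.det_unique, op_apply, J_apply, map_add, map_smul, map_sum, map_sum]
  simp only [Matrix.sub_apply, Matrix.mul_apply, Matrix.of_apply, map_smul,
    Matrix.mulVec, dotProduct, Fm_apply, smul_eq_mul]
  rw [sub_eq_add_neg]
  congr 1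
  rw [Finset.mul_sum, ← Finset.sum_neg_distrib]
  simp_rw [Finset.sum_mul, Finset.mul_sum, ← Finset.sum_neg_distrib]
  rw [Finset.sum_comm]
  refine Finset.sum_congr rfl fun j _ => Finset.sum_congr rfl fun i _ => ?_
  ring

/-- Hadamard's inequality for the bordered matrix -/
theorem had (h : S_HAD) (R : X →L[ℂ] X) {f : Fin n → (X →L[ℂ] ℂ)} {x : Fin n → X} {F : ℝ}
    (hF0 : 0 ≤ F) (hF : 1 + ∑ i, ‖f i‖ ^ 2 ≤ F ^ 2) (κ : ℂ) (y : X) (g : X →L[ℂ] ℂ)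
    (hg : ‖g‖ ≤ 1) :
    ‖(bord R f x κ y g).det‖ ^ 2 ≤
      (∏ j, (1 + F * ‖κ‖ * ‖R (x j)‖) ^ 2) * (F * ‖R y‖) ^ 2 := by
  refine (h (Fin n ⊕ Unit) _).trans ?_
  rw [Fintype.prod_sum_type]
  have hbd : ∀ u : X, ∑ i, ‖f i u‖ ^ 2 + ‖g u‖ ^ 2 ≤ (F * ‖u‖) ^ 2 := by
    intro u
    have h1 : ∑ i, ‖f i u‖ ^ 2 ≤ (∑ i, ‖f i‖ ^ 2) * ‖u‖ ^ 2 := by
      rw [Finset.sum_mul]
      refine Finset.sum_le_sum fun i _ => ?_
      rw [← mul_pow]
      exact pow_le_pow_left₀ (norm_nonneg _) ((f i).le_opNorm u) 2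
    have h2 : ‖g u‖ ^ 2 ≤ ‖u‖ ^ 2 := by
      refine pow_le_pow_left₀ (norm_nonneg _) ((g.le_opNorm u).trans ?_) 2
      nlinarith [norm_nonneg u, norm_nonneg g]
    have h3 : 0 ≤ ‖u‖ ^ 2 := by positivity
    rw [mul_pow]
    nlinarith
  refine mul_le_mul ?_ ?_ (Finset.prod_nonneg fun j _ => Finset.sum_nonneg fun i _ => by positivity)
    (Finset.prod_nonneg fun j _ => by positivity)
  · refine Finset.prod_le_prod (fun j _ => Finset.sum_nonneg fun i _ => by positivity)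
      fun j _ => ?_
    rw [Fintype.sum_sum_type]
    have h2 : ∀ i, bord R f x κ y g (Sum.inl i) (Sum.inl j) =
        (1 : Matrix (Fin n) (Fin n) ℂ) i j - κ * f i (R (x j)) := by
      intro i
      rw [bord, Matrix.fromBlocks_apply₁₁, Matrix.sub_apply, Matrix.smul_apply, smul_eq_mul]
      rfl
    simp_rw [h2]
    have h3 : ∑ i : Unit, ‖bord R f x κ y g (Sum.inr i) (Sum.inl j)‖ ^ 2 =
        (‖κ‖ * ‖g (R (x j))‖) ^ 2 := by
      rw [Fintype.sum_unique, bord, Matrix.fromBlocks_apply₂₁, Matrix.of_apply, norm_mul,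
        norm_neg]
    rw [h3]
    refine col (fun i => κ * f i (R (x j))) _ (F * ‖κ‖ * ‖R (x j)‖) (by positivity) j ?_
      (by positivity)
    have h4 := hbd (R (x j))
    have h5 : ∑ i, ‖κ * f i (R (x j))‖ ^ 2 = ‖κ‖ ^ 2 * ∑ i, ‖f i (R (x j))‖ ^ 2 := by
      rw [Finset.mul_sum]
      exact Finset.sum_congr rfl fun i _ => by rw [norm_mul, mul_pow]
    have h6 : 0 ≤ ‖κ‖ ^ 2 := by positivity
    rw [h5]
    calc ‖κ‖ ^ 2 * ∑ i, ‖f i (R (x j))‖ ^ 2 + (‖κ‖ * ‖g (R (x j))‖) ^ 2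
        = ‖κ‖ ^ 2 * (∑ i, ‖f i (R (x j))‖ ^ 2 + ‖g (R (x j))‖ ^ 2) := by ring
      _ ≤ ‖κ‖ ^ 2 * (F * ‖R (x j)‖) ^ 2 := mul_le_mul_of_nonneg_left h4 h6
      _ = (F * ‖κ‖ * ‖R (x j)‖) ^ 2 := by ring
  · rw [Fintype.prod_unique, Fintype.sum_sum_type]
    have h1 : ∀ i, bord R f x κ y g (Sum.inl i) (Sum.inr default) = f i (R y) := fun i => rfl
    have h2 : ∑ i : Unit, ‖bord R f x κ y g (Sum.inr i) (Sum.inr default)‖ ^ 2 =
        ‖g (R y)‖ ^ 2 := by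
      rw [Fintype.sum_unique]
      rfl
    simp_rw [h1]
    rw [h2]
    exact hbd (R y)

end

theorem main (h : S_HAD) : S_BRES := by
  intro X _ _ _ n f x A K F κ z hF0 hF hK hz hdet
  have hKJ : K = (J x).comp (Fm f) := by
    ext y
    rw [ContinuousLinearMap.comp_apply, J_apply, hK]
    exact Finset.sum_congr rfl fun j _ => by rw [Fm_apply]
  obtain ⟨N, hN1, hN2⟩ : ∃ N, (1 - κ • Bm (resolvent A z) f x) * N = 1 ∧
      N * (1 - κ • Bm (resolvent A z) f x) = 1 :=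
    ⟨_, Matrix.mul_nonsing_inv _ (isUnit_iff_ne_zero.2 hdet),
      Matrix.nonsing_inv_mul _ (isUnit_iff_ne_zero.2 hdet)⟩
  have hres := res_formula A (Fm f) (J x) κ z hz N (by rw [Mx_eq]; exact hN1)
    (by rw [Mx_eq]; exact hN2)
  rw [← hKJ] at hres
  refine ⟨hres.1, ?_⟩
  set R := resolvent A z with hR
  set S := resolvent (A + κ • K) z with hS
  have hSx : ∀ y, S y = R y + κ • R (J x (op N (Fm f (R y)))) := by
    intro y
    rw [hres.2]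
    rfl
  have hpr : 0 ≤ ∏ j, (1 + F * ‖κ‖ * ‖R (x j)‖) := Finset.prod_nonneg fun j _ => by positivity
  have key : ∀ (y : X) (g : X →L[ℂ] ℂ), ‖g‖ ≤ 1 → ‖(1 - κ • Bm R f x).det‖ * ‖g (S y)‖ ≤
      F * ‖R y‖ * ∏ j, (1 + F * ‖κ‖ * ‖R (x j)‖) := by
    intro y g hg
    have h1 := had h R (x := x) hF0 hF κ y g hg
    rw [det_bord R f x κ y g N hN1 hN2, ← hSx, norm_mul, Finset.prod_pow, ← mul_pow] at h1
    have h2 := le_of_sq_le_sq h1 (by positivity)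
    linarith
  have key2 : ∀ y, ‖(‖(1 - κ • Bm R f x).det‖ : ℂ) • S y‖ ≤
      (F * ‖R‖ * ∏ j, (1 + F * ‖κ‖ * ‖R (x j)‖)) * ‖y‖ := by
    intro y
    obtain ⟨g, hg1, hg2⟩ := exists_dual_vector'' ℂ (S y)
    have h1 := key y g hg1
    have hgn : ‖g (S y)‖ = ‖S y‖ := by
      rw [hg2]
      simp
    rw [norm_smul, Complex.norm_real, norm_norm]
    rw [hgn] at h1
    refine h1.trans ?_
    have h2 : ‖R y‖ ≤ ‖R‖ * ‖y‖ := R.le_opNorm y
    have h3 := mul_le_mul_of_nonneg_right (mul_le_mul_of_nonneg_left h2 hF0) hpr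
    linarith
  have key3 := ContinuousLinearMap.opNorm_le_bound ((‖(1 - κ • Bm R f x).det‖ : ℂ) • S)
    (by positivity) key2
  rw [norm_smul, Complex.norm_real, norm_norm] at key3
  linarith

end Pool.Agent.R276.NC.Rs
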