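import Pool.Agent.R276.CP.Stm

/-!
# Project NC (MP_5ac32f_an, MP_49c4d9_an): infinite rank perturbations on Banach spaces

`A` an operator on a Banach space with locally log-integrable resolvent, `K y = ∑ f j y • x j`,
`∑ ‖f j‖² < ∞`, `∑ j, ∫_U log (1 + ‖(z - A)⁻¹ x j‖) < ∞`: for almost every coupling constant `κ` the resolvent
of `A + κ K` is log-integrable on `U`.  Proofs in `NOTES.md`.
-/

set_option autoImplicit false

namespace Pool.Agent.R276.NC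

open MeasureTheory Set Metric Filter Topology
open scoped ENNReal NNReal
open Pool.Agent.R276.CP (lm LogBd S_HAD S_POT)

/-- the matrix `f i (R (x j))` -/
noncomputable def Bm {X : Type} [NormedAddCommGroup X] [NormedSpace ℂ X] {n : ℕ}
    (R : X →L[ℂ] X) (f : Fin n → (X →L[ℂ] ℂ)) (x : Fin n → X) : Matrix (Fin n) (Fin n) ℂ :=
  Matrix.of fun i j => f i (R (x j))

/-- BUP: upper bound for the determinant -/
def S_BUP : Prop :=
  ∀ (X : Type) [NormedAddCommGroup X] [NormedSpace ℂ X] (n : ℕ) (f : Fin n → (X →L[ℂ] ℂ))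
    (x : Fin n → X) (R : X →L[ℂ] X) (F : ℝ) (κ : ℂ), 0 ≤ F → ∑ i, ‖f i‖ ^ 2 ≤ F ^ 2 →
    ‖(1 - κ • Bm R f x).det‖ ≤ ∏ j, (1 + F * ‖κ‖ * ‖R (x j)‖)

/-- BRES: bound for the resolvent of a finite rank perturbation, uniform in the rank -/
def S_BRES : Prop :=
  ∀ (X : Type) [NormedAddCommGroup X] [NormedSpace ℂ X] [CompleteSpace X] (n : ℕ)
    (f : Fin n → (X →L[ℂ] ℂ)) (x : Fin n → X) (A K : X →L[ℂ] X) (F : ℝ) (κ z : ℂ), 0 ≤ F →
    1 + ∑ i, ‖f i‖ ^ 2 ≤ F ^ 2 → (∀ y, K y = ∑ j, f j y • x j) → z ∈ resolventSet ℂ A →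
    (1 - κ • Bm (resolvent A z) f x).det ≠ 0 →
    z ∈ resolventSet ℂ (A + κ • K) ∧
      ‖resolvent (A + κ • K) z‖ * ‖(1 - κ • Bm (resolvent A z) f x).det‖ ≤
        F * ‖resolvent A z‖ * ∏ j, (1 + F * ‖κ‖ * ‖resolvent A z (x j)‖)

/-- NFAT: log-integrability of the resolvent of `A + κ K` on `U` for almost every `κ` -/
def S_NFAT : Prop :=
  ∀ (X : Type) [NormedAddCommGroup X] [NormedSpace ℂ X] [CompleteSpace X] (A K : X →L[ℂ] X)
    (f : ℕ → (X →L[ℂ] ℂ)) (x : ℕ → X), Summable (fun j => ‖f j‖ ^ 2) →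
    Summable (fun j => ‖x j‖ ^ 2) → (∀ y, HasSum (fun j => f j y • x j) (K y)) →
    ∀ U : Set ℂ, IsOpen U → volume U ≠ ⊤ → volume (spectrum ℂ A ∩ U) = 0 →
    IntegrableOn (fun z : ℂ => Real.posLog ‖resolvent A z‖) U →
    ∑' j, ∫⁻ z in U, ENNReal.ofReal (Real.log (1 + ‖resolvent A z (x j)‖)) ≠ ⊤ →
    ∀ m : Measure ℂ, LogBd m → ∀ r : ℝ, 0 < r →
    ∀ᵐ κ ∂(m.restrict (ball (0:ℂ) r)),
      volume (spectrum ℂ (A + κ • K) ∩ U) = 0 ∧
      IntegrableOn (fun z : ℂ => Real.posLog ‖resolvent (A + κ • K) z‖) U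

/-- POW: if the resolvent grows at most like a power of the distance to a thin spectrum, then the
condition of NFAT holds for `∑ ‖x j‖ ^ s < ∞` with `s` small -/
def S_POW : Prop :=
  ∀ (X : Type) [NormedAddCommGroup X] [NormedSpace ℂ X] [CompleteSpace X] [Nontrivial X]
    (A : X →L[ℂ] X) (x : ℕ → X) (C k ε s R : ℝ), 0 < k → 0 < ε → 0 < s → s ≤ 1 → s * k < ε →
    (∀ δ : ℝ, 0 < δ → δ ≤ 1 →
      volume {z : ℂ | infDist z (spectrum ℂ A) ≤ δ} ≤ ENNReal.ofReal (C * δ ^ ε)) →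
    (∀ z : ℂ, z ∉ spectrum ℂ A → ‖z‖ < R →
      ‖resolvent A z‖ ≤ C * infDist z (spectrum ℂ A) ^ (-k)) →
    Summable (fun j => ‖x j‖ ^ s) →
    volume (spectrum ℂ A ∩ ball 0 R) = 0 ∧
      IntegrableOn (fun z : ℂ => Real.posLog ‖resolvent A z‖) (ball 0 R) ∧
      ∑' j, ∫⁻ z in ball (0:ℂ) R, ENNReal.ofReal (Real.log (1 + ‖resolvent A z (x j)‖)) ≠ ⊤

end Pool.Agent.R276.NC
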