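import Pool.Agent.R276.NC.Stm

/-!
# Part NC-A: Hadamard bound for `det (1 - κ B)` on Banach spaces
-/

set_option autoImplicit false

namespace Pool.Agent.R276.NC.Up

open MeasureTheory Set Metric Filter Topology Pool.Agent.R276.NC
open Pool.Agent.R276.CP (S_HAD)
open scoped ENNReal NNReal

theorem col {X : Type} [NormedAddCommGroup X] [NormedSpace ℂ X] {n : ℕ}
    (f : Fin n → (X →L[ℂ] ℂ)) (x : Fin n → X) (R : X →L[ℂ] X) {F : ℝ} (κ : ℂ) (hF : 0 ≤ F)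
    (hf : ∑ i, ‖f i‖ ^ 2 ≤ F ^ 2) (j : Fin n) :
    ∑ i, ‖(1 - κ • Bm R f x) i j‖ ^ 2 ≤ (1 + F * ‖κ‖ * ‖R (x j)‖) ^ 2 := by
  obtain ⟨b, hb⟩ : ∃ b : ℝ, b = F * ‖κ‖ * ‖R (x j)‖ := ⟨_, rfl⟩
  have hb0 : 0 ≤ b := by rw [hb]; positivity
  rw [← hb]
  have hS : ∑ i, ‖κ * f i (R (x j))‖ ^ 2 ≤ b ^ 2 := by
    calc ∑ i, ‖κ * f i (R (x j))‖ ^ 2 ≤ ∑ i, (‖κ‖ ^ 2 * ‖R (x j)‖ ^ 2) * ‖f i‖ ^ 2 := by
          refine Finset.sum_le_sum fun i _ => ?_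
          rw [norm_mul, mul_pow, mul_assoc]
          refine mul_le_mul_of_nonneg_left ?_ (sq_nonneg _)
          have h1 := (f i).le_opNorm (R (x j))
          calc ‖f i (R (x j))‖ ^ 2 ≤ (‖f i‖ * ‖R (x j)‖) ^ 2 :=
                pow_le_pow_left₀ (norm_nonneg _) h1 2
            _ = _ := by ring
      _ = (‖κ‖ ^ 2 * ‖R (x j)‖ ^ 2) * ∑ i, ‖f i‖ ^ 2 := by rw [Finset.mul_sum]
      _ ≤ (‖κ‖ ^ 2 * ‖R (x j)‖ ^ 2) * F ^ 2 := mul_le_mul_of_nonneg_left hf (by positivity)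
      _ = b ^ 2 := by rw [hb]; ring
  have hv : ‖κ * f j (R (x j))‖ ≤ b := by
    have h1 : ‖κ * f j (R (x j))‖ ^ 2 ≤ b ^ 2 :=
      (Finset.single_le_sum (f := fun i => ‖κ * f i (R (x j))‖ ^ 2)
        (fun i _ => sq_nonneg _) (Finset.mem_univ j)).trans hS
    exact le_of_sq_le_sq h1 hb0
  have h1 : ∀ i, ‖(1 - κ • Bm R f x) i j‖ ^ 2 ≤
      (if i = j then 1 + 2 * ‖κ * f j (R (x j))‖ else 0) + ‖κ * f i (R (x j))‖ ^ 2 := by
    intro i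
    have e1 : (1 - κ • Bm R f x) i j =
        (1 : Matrix (Fin n) (Fin n) ℂ) i j - κ * f i (R (x j)) := by
      rw [Matrix.sub_apply, Matrix.smul_apply, smul_eq_mul]
      rfl
    rw [e1, Matrix.one_apply]
    split_ifs with h
    · subst h
      have h2 : ‖(1 : ℂ) - κ * f i (R (x i))‖ ≤ 1 + ‖κ * f i (R (x i))‖ := by
        have := norm_sub_le (1 : ℂ) (κ * f i (R (x i)))
        rwa [norm_one] at this
      calc ‖(1 : ℂ) - κ * f i (R (x i))‖ ^ 2 ≤ (1 + ‖κ * f i (R (x i))‖) ^ 2 :=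
            pow_le_pow_left₀ (norm_nonneg _) h2 2
        _ = _ := by ring
    · rw [zero_sub, norm_neg, zero_add]
  calc ∑ i, ‖(1 - κ • Bm R f x) i j‖ ^ 2
      ≤ ∑ i, ((if i = j then 1 + 2 * ‖κ * f j (R (x j))‖ else 0) +
          ‖κ * f i (R (x j))‖ ^ 2) := Finset.sum_le_sum fun i _ => h1 i
    _ = (1 + 2 * ‖κ * f j (R (x j))‖) + ∑ i, ‖κ * f i (R (x j))‖ ^ 2 := by
        rw [Finset.sum_add_distrib, Finset.sum_ite_eq' Finset.univ j, if_pos (Finset.mem_univ j)]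
    _ ≤ (1 + 2 * b) + b ^ 2 := by linarith
    _ = (1 + b) ^ 2 := by ring

theorem main (h : S_HAD) : S_BUP := by
  intro X _ _ n f x R F κ hF hf
  have hnn : ∀ j, 0 ≤ 1 + F * ‖κ‖ * ‖R (x j)‖ := fun j => by positivity
  refine le_of_sq_le_sq ?_ (Finset.prod_nonneg fun j _ => hnn j)
  refine (h (Fin n) _).trans ?_
  rw [← Finset.prod_pow]
  exact Finset.prod_le_prod (fun j _ => Finset.sum_nonneg fun i _ => sq_nonneg _)
    fun j _ => col f x R κ hF hf j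

end Pool.Agent.R276.NC.Up
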